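import Mathlib

set_option autoImplicit false

/-! Truncated composition operators on complex square summable functions and a Schur test. -/

namespace Pool.Agent.H751R3.Dart

open scoped ENNReal

variable {V : Type}

/-- complex square summable functions -/
abbrev L2 (V : Type) : Type := lp (fun _ : V => ℂ) 2

theorem mem_of_summable (f : V → ℂ) (h : Summable (fun v => ‖f v‖ ^ 2)) : Memℓp f 2 := by
  refine memℓp_gen ?_
  simpa using h

theorem summable_sq (f : L2 V) : Summable (fun v => ‖f v‖ ^ 2) := by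
  have := (lp.memℓp f).summable (by norm_num)
  simpa using this

theorem norm_sq_eq' (f : L2 V) : ‖f‖ ^ 2 = ∑' v, ‖f v‖ ^ 2 := by
  have := lp.norm_rpow_eq_tsum (p := 2) (by norm_num) f
  simpa using this

open Classical in
/-- `f (σ v)` for `v ∈ S` and `0` otherwise -/
noncomputable def cf (S : Set V) (σ : V → V) (f : V → ℂ) (v : V) : ℂ :=
  if v ∈ S then f (σ v) else 0

theorem cf_summable (S : Set V) (σ : V → V) (hσ : Set.InjOn σ S) (u : L2 V) :
    Summable (fun y => ‖cf S σ u y‖ ^ 2) ∧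
      ∑' y, ‖cf S σ u y‖ ^ 2 ≤ ∑' y, ‖u y‖ ^ 2 := by
  have hu : Summable (fun y => ‖u y‖ ^ 2) := summable_sq u
  have hinj : Function.Injective (fun y : S => σ y) := by
    intro a b hab
    exact Subtype.ext (hσ a.2 b.2 hab)
  have e : (fun y => ‖cf S σ u y‖ ^ 2) = S.indicator (fun y => ‖u (σ y)‖ ^ 2) := by
    funext y
    by_cases hy : y ∈ S <;> simp [cf, hy]
  rw [e]
  constructor
  · rw [← summable_subtype_iff_indicator]
    exact hu.comp_injective hinj
  · rw [← tsum_subtype]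
    exact tsum_comp_le_tsum_of_inj hu (fun _ => by positivity) hinj

/-- truncated composition as a bounded operator -/
noncomputable def cop (S : Set V) (σ : V → V) (hσ : Set.InjOn σ S) : L2 V →L[ℂ] L2 V :=
  LinearMap.mkContinuous
    { toFun := fun u => ⟨cf S σ u, mem_of_summable _ (cf_summable S σ hσ u).1⟩
      map_add' := by
        intro u w
        ext y
        change cf S σ (u + w : L2 V) y = cf S σ u y + cf S σ w y
        by_cases hy : y ∈ S <;> simp [cf, hy]
      map_smul' := by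
        intro c u
        ext y
        change cf S σ (c • u : L2 V) y = c • cf S σ u y
        by_cases hy : y ∈ S <;> simp [cf, hy] } 1 (by
    intro u
    rw [one_mul]
    refine (pow_le_pow_iff_left₀ (norm_nonneg _) (norm_nonneg _) two_ne_zero).1 ?_
    rw [norm_sq_eq', norm_sq_eq']
    exact (cf_summable S σ hσ u).2)

theorem cop_apply (S : Set V) (σ : V → V) (hσ : Set.InjOn σ S) (u : L2 V) (v : V) :
    cop S σ hσ u v = cf S σ u v := rfl

/-- A system of darts: each dart `i` is a partial map with domain `S i`, reversed by `rev i`. -/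
structure Sys (V ι : Type) where
  S : ι → Set V
  σ : ι → V → V
  rev : ι → ι
  rev_rev : ∀ i, rev (rev i) = i
  mem : ∀ i, ∀ v ∈ S i, σ i v ∈ S (rev i)
  inv : ∀ i, ∀ v ∈ S i, σ (rev i) (σ i v) = v

variable {ι : Type} [Fintype ι]

theorem Sys.injOn (D : Sys V ι) (i : ι) : Set.InjOn (D.σ i) (D.S i) := by
  intro v hv w hw h
  rw [← D.inv i v hv, ← D.inv i w hw, h]

/-- The adjacency operator of a dart system. -/
noncomputable def Sys.op (D : Sys V ι) : L2 V →L[ℂ] L2 V := ∑ i, cop (D.S i) (D.σ i) (D.injOn i)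

theorem Sys.op_apply (D : Sys V ι) (f : L2 V) (v : V) :
    D.op f v = ∑ i, cf (D.S i) (D.σ i) f v := by
  unfold Sys.op
  rw [sum_apply, lp.coeFn_sum, Finset.sum_apply]
  rfl

/-- the bijection between the domains of a dart and of its reverse -/
def Sys.equiv (D : Sys V ι) (i : ι) : D.S i ≃ D.S (D.rev i) where
  toFun v := ⟨D.σ i v, D.mem i v v.2⟩
  invFun w := ⟨D.σ (D.rev i) w, by
    have := D.mem (D.rev i) w w.2
    rwa [D.rev_rev] at this⟩
  left_inv v := Subtype.ext (D.inv i v v.2)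
  right_inv w := Subtype.ext (by
    have := D.inv (D.rev i) w w.2
    rwa [D.rev_rev] at this)

theorem Sys.tsum_flip {β : Type*} [AddCommMonoid β] [TopologicalSpace β] (D : Sys V ι) (i : ι)
    (g : V → V → β) :
    ∑' v, (D.S i).indicator (fun v => g v (D.σ i v)) v =
      ∑' v, (D.S (D.rev i)).indicator (fun v => g (D.σ (D.rev i) v) v) v := by
  rw [← tsum_subtype, ← tsum_subtype, ← (D.equiv i).tsum_eq]
  refine tsum_congr fun v => ?_
  change g v (D.σ i v) = g (D.σ (D.rev i) (D.σ i v)) (D.σ i v)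
  rw [D.inv i v v.2]

theorem Sys.symm (D : Sys V ι) (f g : L2 V) : inner ℂ (D.op f) g = inner ℂ f (D.op g) := by
  have hsum : ∀ i, inner ℂ (cop (D.S i) (D.σ i) (D.injOn i) f) g =
      inner ℂ f (cop (D.S (D.rev i)) (D.σ (D.rev i)) (D.injOn (D.rev i)) g) := by
    intro i
    rw [lp.inner_eq_tsum, lp.inner_eq_tsum]
    have h1 : ∀ v, inner ℂ (cop (D.S i) (D.σ i) (D.injOn i) f v) (g v) =
        (D.S i).indicator (fun v => (fun x y => inner ℂ (f y) (g x)) v (D.σ i v)) v := by
      intro v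
      rw [cop_apply]
      by_cases hv : v ∈ D.S i <;> simp [cf, hv]
    have h2 : ∀ v, inner ℂ (f v) (cop (D.S (D.rev i)) (D.σ (D.rev i)) (D.injOn (D.rev i)) g v) =
        (D.S (D.rev i)).indicator
          (fun v => (fun x y => inner ℂ (f y) (g x)) (D.σ (D.rev i) v) v) v := by
      intro v
      rw [cop_apply]
      by_cases hv : v ∈ D.S (D.rev i) <;> simp [cf, hv]
    rw [tsum_congr h1, tsum_congr h2]
    exact D.tsum_flip i (fun x y => inner ℂ (f y) (g x))
  unfold Sys.op
  rw [sum_apply, sum_apply, sum_inner, inner_sum]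
  rw [Finset.sum_congr rfl fun i _ => hsum i]
  exact Fintype.sum_equiv ⟨D.rev, D.rev, D.rev_rev, D.rev_rev⟩ _ _ (fun i => rfl)

/-- **Schur test.** -/
theorem Sys.schur (D : Sys V ι) (s : ι → V → ℝ) (hs0 : ∀ i, ∀ v ∈ D.S i, 0 < s i v)
    (hs1 : ∀ i, ∀ v ∈ D.S i, s (D.rev i) (D.σ i v) = (s i v)⁻¹)
    {Θ : ℝ} (hΘ : ∀ v, ∑ i, (D.S i).indicator (s i) v ≤ Θ) (f : L2 V) :
    ‖inner ℂ f (D.op f)‖ ≤ Θ * ‖f‖ ^ 2 := by
  have hf := summable_sq f
  -- weighted sums
  have hnn : ∀ i v, 0 ≤ (D.S i).indicator (s i) v := fun i v =>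
    Set.indicator_apply_nonneg fun h => (hs0 i v h).le
  have hle : ∀ i v, (D.S i).indicator (s i) v ≤ Θ := fun i v =>
    (Finset.single_le_sum (fun j _ => hnn j v) (Finset.mem_univ i)).trans (hΘ v)
  have hS : ∀ i, Summable fun v => (D.S i).indicator (s i) v * ‖f v‖ ^ 2 := by
    intro i
    refine Summable.of_nonneg_of_le (fun v => mul_nonneg (hnn i v) (sq_nonneg _)) (fun v => ?_)
      (hf.mul_left Θ)
    exact mul_le_mul_of_nonneg_right (hle i v) (sq_nonneg _)
  have hflip : ∀ i, ∑' v, (D.S i).indicator (fun v => s (D.rev i) (D.σ i v) * ‖f (D.σ i v)‖ ^ 2) v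
      = ∑' v, (D.S (D.rev i)).indicator (s (D.rev i)) v * ‖f v‖ ^ 2 := by
    intro i
    rw [D.tsum_flip i (fun x y => s (D.rev i) y * ‖f y‖ ^ 2)]
    refine tsum_congr fun v => ?_
    by_cases hv : v ∈ D.S (D.rev i) <;> simp [hv]
  have hSf : ∀ i, Summable fun v =>
      (D.S i).indicator (fun v => s (D.rev i) (D.σ i v) * ‖f (D.σ i v)‖ ^ 2) v := by
    intro i
    have h1 := (summable_subtype_iff_indicator (f := fun v => s (D.rev i) v * ‖f v‖ ^ 2)
      (s := D.S (D.rev i))).2 (by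
        refine (hS (D.rev i)).congr fun v => ?_
        by_cases hv : v ∈ D.S (D.rev i) <;> simp [hv])
    rw [← (D.equiv i).summable_iff] at h1
    exact (summable_subtype_iff_indicator
      (f := fun v => s (D.rev i) (D.σ i v) * ‖f (D.σ i v)‖ ^ 2)).1 h1
  have hterm : ∀ i, ‖inner ℂ f (cop (D.S i) (D.σ i) (D.injOn i) f)‖ ≤
      (∑' v, (D.S i).indicator (s i) v * ‖f v‖ ^ 2 +
        ∑' v, (D.S (D.rev i)).indicator (s (D.rev i)) v * ‖f v‖ ^ 2) / 2 := by
    intro i
    rw [← hflip i, ← Summable.tsum_add (hS i) (hSf i), ← tsum_div_const, lp.inner_eq_tsum]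
    have hb : ∀ v, ‖inner ℂ (f v) (cop (D.S i) (D.σ i) (D.injOn i) f v)‖ ≤
        ((D.S i).indicator (s i) v * ‖f v‖ ^ 2 +
          (D.S i).indicator (fun v => s (D.rev i) (D.σ i v) * ‖f (D.σ i v)‖ ^ 2) v) / 2 := by
      intro v
      rw [cop_apply]
      by_cases hv : v ∈ D.S i
      · simp only [cf, hv, if_true, Set.indicator_of_mem]
        have h1 := hs0 i v hv
        rw [hs1 i v hv]
        have h2 : ‖inner ℂ (f v) (f (D.σ i v))‖ ≤ ‖f v‖ * ‖f (D.σ i v)‖ := norm_inner_le_norm _ _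
        set a := ‖f v‖
        set b := ‖f (D.σ i v)‖
        set r := s i v
        have h4 : 0 ≤ r⁻¹ * (r * a - b) ^ 2 := by positivity
        have h5 : r⁻¹ * (r * a - b) ^ 2 = r * a ^ 2 + r⁻¹ * b ^ 2 - 2 * (a * b) := by
          field_simp
          ring
        linarith
      · simp [cf, hv]
    refine (norm_tsum_le_tsum_norm ?_).trans (Summable.tsum_le_tsum hb ?_
      (((hS i).add (hSf i)).div_const 2))
    · exact Summable.of_nonneg_of_le (fun v => norm_nonneg _) hb
        (((hS i).add (hSf i)).div_const 2)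
    · exact Summable.of_nonneg_of_le (fun v => norm_nonneg _) hb
        (((hS i).add (hSf i)).div_const 2)
  have hre : ∑ i, ∑' v, (D.S (D.rev i)).indicator (s (D.rev i)) v * ‖f v‖ ^ 2 =
      ∑ i, ∑' v, (D.S i).indicator (s i) v * ‖f v‖ ^ 2 :=
    Fintype.sum_equiv ⟨D.rev, D.rev, D.rev_rev, D.rev_rev⟩ _ _ (fun i => rfl)
  calc ‖inner ℂ f (D.op f)‖ = ‖∑ i, inner ℂ f (cop (D.S i) (D.σ i) (D.injOn i) f)‖ := by
        unfold Sys.op
        rw [sum_apply, inner_sum]
    _ ≤ ∑ i, ‖inner ℂ f (cop (D.S i) (D.σ i) (D.injOn i) f)‖ := norm_sum_le _ _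
    _ ≤ ∑ i, (∑' v, (D.S i).indicator (s i) v * ‖f v‖ ^ 2 +
        ∑' v, (D.S (D.rev i)).indicator (s (D.rev i)) v * ‖f v‖ ^ 2) / 2 :=
        Finset.sum_le_sum fun i _ => hterm i
    _ = ∑ i, ∑' v, (D.S i).indicator (s i) v * ‖f v‖ ^ 2 := by
        rw [← Finset.sum_div, Finset.sum_add_distrib, hre]; ring
    _ = ∑' v, ∑ i, (D.S i).indicator (s i) v * ‖f v‖ ^ 2 := by
        rw [Summable.tsum_finsetSum fun i _ => hS i]
    _ ≤ ∑' v, Θ * ‖f v‖ ^ 2 := by
        refine Summable.tsum_le_tsum (fun v => ?_) (summable_sum fun i _ => hS i)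
          (hf.mul_left _)
        rw [← Finset.sum_mul]
        exact mul_le_mul_of_nonneg_right (hΘ v) (sq_nonneg _)
    _ = Θ * ‖f‖ ^ 2 := by rw [tsum_mul_left, norm_sq_eq']

/-- a symmetric operator that is bounded below is invertible -/
theorem isUnit_of_bdd_below {E : Type*} [NormedAddCommGroup E] [InnerProductSpace ℂ E]
    [CompleteSpace E] (T : E →L[ℂ] E) (hs : ∀ x y, inner ℂ (T x) y = inner ℂ x (T y))
    {c : ℝ} (hc : 0 < c) (hb : ∀ x, c * ‖x‖ ≤ ‖T x‖) : IsUnit T := by
  have hanti : AntilipschitzWith (Real.toNNReal c⁻¹) T := by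
    refine AddMonoidHomClass.antilipschitz_of_bound T fun x => ?_
    rw [Real.coe_toNNReal _ (by positivity)]
    have := hb x
    rw [inv_mul_eq_div, le_div_iff₀ hc]
    linarith
  have hcl : IsClosed (Set.range T) := hanti.isClosed_range T.uniformContinuous
  have hcl' : IsClosed ((LinearMap.range (T : E →ₗ[ℂ] E) : Submodule ℂ E) : Set E) := by
    rw [LinearMap.coe_range]
    exact hcl
  have : CompleteSpace (LinearMap.range (T : E →ₗ[ℂ] E)) := hcl'.completeSpace_coe
  have htop : LinearMap.range (T : E →ₗ[ℂ] E) = ⊤ := by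
    rw [← Submodule.orthogonal_eq_bot_iff]
    rw [Submodule.eq_bot_iff]
    intro z hz
    have h1 : ∀ x, inner ℂ (T x) z = 0 := fun x =>
      (Submodule.mem_orthogonal _ z).1 hz (T x) ⟨x, rfl⟩
    have h2 : T z = 0 := by
      have := h1 (T z)
      rw [hs] at this
      exact inner_self_eq_zero.1 this
    have h3 := hb z
    rw [h2, norm_zero] at h3
    have : ‖z‖ ≤ 0 := by
      by_contra h
      push Not at h
      nlinarith
    exact norm_le_zero_iff.1 this
  rw [ContinuousLinearMap.isUnit_iff_bijective]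
  exact ⟨hanti.injective, LinearMap.range_eq_top.1 htop⟩

end Pool.Agent.H751R3.Dart
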