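import Mathlib

set_option autoImplicit false

/-! The 3-regular tree as the set of reduced words in three involutions. -/

namespace Pool.Agent.H751R3

/-- A graph with a height function such that neighbours have different heights and each vertex has
at most one lower neighbour is acyclic. -/
theorem acyclic_of_height' {V : Type} (G : SimpleGraph V) (h : V → ℕ)
    (h1 : ∀ u v, G.Adj u v → h u ≠ h v)
    (h2 : ∀ v u w, G.Adj v u → G.Adj v w → h u < h v → h w < h v → u = w) : G.IsAcyclic := by
  classical
  intro v c hc
  have hne : c.support.toFinset.Nonempty := ⟨v, by simp⟩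
  obtain ⟨m, hm, hmax⟩ := Finset.exists_max_image c.support.toFinset h hne
  have hm' : m ∈ c.support := by simpa using hm
  set c' := c.rotate m hm' with hc'
  have hcyc : c'.IsCycle := hc.rotate hm'
  have hsup : ∀ x, x ∈ c'.support → h x ≤ h m := by
    intro x hx
    refine hmax x ?_
    rw [List.mem_toFinset]
    exact (SimpleGraph.Walk.mem_support_rotate_iff c m hm').1 hx
  have hnn := hcyc.not_nil
  have a1 : G.Adj m c'.snd := c'.adj_snd hnn
  have a2 : G.Adj m c'.penultimate := (c'.adj_penultimate hnn).symm
  have m1 : c'.snd ∈ c'.support := List.mem_of_mem_tail (c'.snd_mem_tail_support hnn)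
  have m2 : c'.penultimate ∈ c'.support :=
    List.mem_of_mem_dropLast (c'.penultimate_mem_dropLast_support hnn)
  have l1 := lt_of_le_of_ne (hsup _ m1) (h1 _ _ a1).symm
  have l2 := lt_of_le_of_ne (hsup _ m2) (h1 _ _ a2).symm
  exact hcyc.snd_ne_penultimate (h2 m _ _ a1 a2 l1 l2)

/-- Reduced words: no two neighbouring letters are equal. -/
abbrev W : Type := {l : List (Fin 3) // l.IsChain (· ≠ ·)}

/-- Left multiplication of a word by a letter, with cancellation. -/
def actL (c : Fin 3) : List (Fin 3) → List (Fin 3)
  | [] => [c]
  | d :: l => if c = d then l else c :: d :: l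

theorem actL_chain (c : Fin 3) (l : List (Fin 3)) (h : l.IsChain (· ≠ ·)) :
    (actL c l).IsChain (· ≠ ·) := by
  cases l with
  | nil => simp [actL]
  | cons d l =>
    by_cases hcd : c = d
    · simp only [actL, hcd, if_true]
      exact h.tail
    · simp only [actL, hcd, if_false]
      exact List.isChain_cons_cons.2 ⟨hcd, h⟩

theorem actL_actL (c : Fin 3) (l : List (Fin 3)) (h : l.IsChain (· ≠ ·)) :
    actL c (actL c l) = l := by
  cases l with
  | nil => simp [actL]
  | cons d l =>
    by_cases hcd : c = d
    · subst hcd
      cases l with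
      | nil => simp [actL]
      | cons e l =>
        have : c ≠ e := (List.isChain_cons_cons.1 h).1
        simp [actL, this]
    · simp [actL, hcd]

/-- The action of a letter on words. -/
def act (c : Fin 3) (w : W) : W := ⟨actL c w.1, actL_chain c w.1 w.2⟩

theorem act_act (c : Fin 3) (w : W) : act c (act c w) = w := Subtype.ext (actL_actL c w.1 w.2)

/-- The empty word. -/
def e0 : W := ⟨[], by simp⟩

/-- Length. -/
def len (w : W) : ℕ := w.1.length

theorem len_act (c : Fin 3) (w : W) :
    (w.1.head? = some c ∧ len w = len (act c w) + 1 ∧ (act c w).1 = w.1.tail) ∨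
    (w.1.head? ≠ some c ∧ len (act c w) = len w + 1 ∧ (act c w).1 = c :: w.1) := by
  obtain ⟨l, hl⟩ := w
  cases l with
  | nil => right; simp [len, act, actL]
  | cons d l =>
    by_cases hcd : c = d
    · left; subst hcd; simp [len, act, actL]
    · right
      refine ⟨by simpa using fun h => hcd h.symm, ?_, ?_⟩
      · simp [len, act, actL, hcd]
      · simp [act, actL, hcd]

theorem act_ne (c : Fin 3) (w : W) : act c w ≠ w := by
  intro h
  rcases len_act c w with ⟨_, h1, _⟩ | ⟨_, h1, _⟩ <;> rw [h] at h1 <;> omega

theorem act_inj_left {c d : Fin 3} {w : W} (h : act c w = act d w) : c = d := by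
  rcases len_act c w with ⟨h0, h1, h2⟩ | ⟨h0, h1, h2⟩
  · rcases len_act d w with ⟨g0, g1, g2⟩ | ⟨g0, g1, g2⟩
    · exact Option.some.inj (h0.symm.trans g0)
    · rw [h] at h1; omega
  · rcases len_act d w with ⟨g0, g1, g2⟩ | ⟨g0, g1, g2⟩
    · rw [h] at h1; omega
    · rw [h, g2] at h2
      exact (List.cons.inj h2).1.symm

/-- The 3-regular tree. -/
def T3 : SimpleGraph W where
  Adj u v := ∃ c, v = act c u
  symm := ⟨by
    rintro u v ⟨c, rfl⟩
    exact ⟨c, (act_act c u).symm⟩⟩
  loopless := ⟨by
    rintro u ⟨c, hc⟩
    exact act_ne c u hc.symm⟩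

theorem T3_adj {u v : W} : T3.Adj u v ↔ ∃ c, v = act c u := Iff.rfl

theorem act_surj_left (c : Fin 3) (l : List (Fin 3)) (h : (c :: l).IsChain (· ≠ ·)) :
    (⟨c :: l, h⟩ : W) = act c ⟨l, h.tail⟩ := by
  apply Subtype.ext
  change c :: l = actL c l
  cases l with
  | nil => simp [actL]
  | cons d l =>
    have : c ≠ d := (List.isChain_cons_cons.1 h).1
    simp [actL, this]

/-- Induction on words. -/
theorem W_induction {P : W → Prop} (h0 : P e0) (h1 : ∀ c w, P w → P (act c w)) (w : W) : P w := by
  obtain ⟨l, hl⟩ := w
  induction l with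
  | nil => exact h0
  | cons c l ih =>
    rw [act_surj_left]
    exact h1 _ _ (ih hl.tail)

theorem T3_isTree : T3.IsTree := by
  constructor
  · have h : ∀ w : W, T3.Reachable e0 w := by
      intro w
      induction w using W_induction with
      | h0 => exact SimpleGraph.Reachable.refl _
      | h1 c w ih => exact ih.trans (SimpleGraph.Adj.reachable ⟨c, rfl⟩)
    exact (SimpleGraph.connected_iff _).mpr
      ⟨fun u v => (h u).symm.trans (h v), ⟨e0⟩⟩
  · refine acyclic_of_height' T3 len ?_ ?_
    · rintro u v ⟨c, rfl⟩
      rcases len_act c u with ⟨_, h1, _⟩ | ⟨_, h1, _⟩ <;> omega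
    · rintro v u w ⟨c, rfl⟩ ⟨d, rfl⟩ hu hw
      rcases len_act c v with ⟨h0, h1, h2⟩ | ⟨h0, h1, h2⟩
      · rcases len_act d v with ⟨g0, g1, g2⟩ | ⟨g0, g1, g2⟩
        · exact Subtype.ext (h2.trans g2.symm)
        · omega
      · omega

theorem T3_neighborSet (v : W) : T3.neighborSet v = Set.range (fun c => act c v) := by
  ext w
  simp only [SimpleGraph.mem_neighborSet, Set.mem_range]
  constructor
  · rintro ⟨c, rfl⟩; exact ⟨c, rfl⟩
  · rintro ⟨c, rfl⟩; exact ⟨c, rfl⟩

theorem T3_degree (v : W) : (T3.neighborSet v).ncard = 3 := by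
  rw [T3_neighborSet, ← Set.image_univ, Set.ncard_image_of_injective]
  · simp
  · intro c d h; exact act_inj_left h

/-! Translations. -/

/-- `tr w v` is the product `v w` of words. -/
def trL (w : W) : List (Fin 3) → W
  | [] => w
  | c :: l => act c (trL w l)

/-- `tr w v` is the product `v w` of words. -/
def tr (w v : W) : W := trL w v.1

theorem tr_e0 (w : W) : tr w e0 = w := rfl

theorem tr_act (w : W) (c : Fin 3) (v : W) : tr w (act c v) = act c (tr w v) := by
  rcases len_act c v with ⟨h0, h1, h2⟩ | ⟨h0, h1, h2⟩
  · obtain ⟨l, hl⟩ := v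
    cases l with
    | nil => simp at h0
    | cons d l =>
      simp only [List.head?_cons, Option.some.injEq] at h0
      subst h0
      unfold tr
      rw [h2]
      change trL w l = act d (act d (trL w l))
      rw [act_act]
  · unfold tr
    rw [h2]
    rfl

theorem comm_unique {f g : W → W} (hf : ∀ c v, f (act c v) = act c (f v))
    (hg : ∀ c v, g (act c v) = act c (g v)) (h : f e0 = g e0) : f = g := by
  funext w
  induction w using W_induction with
  | h0 => exact h
  | h1 c w ih => rw [hf, hg, ih]

theorem exists_tr (w : W) : ∃ v, tr w v = e0 := by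
  induction w using W_induction with
  | h0 => exact ⟨e0, rfl⟩
  | h1 c w ih =>
    obtain ⟨v, hv⟩ := ih
    -- tr (act c w) v' = e0
    have key : ∀ v, tr (act c w) v = tr w (tr (act c e0) v) := by
      intro v
      have := comm_unique (f := tr (act c w)) (g := fun v => tr w (tr (act c e0) v))
        (fun d v => tr_act _ d v) (fun d v => by simp only [tr_act]) (by
          simp only [tr_e0, tr_act])
      exact congrFun this v
    refine ⟨tr (act c e0) v, ?_⟩
    rw [key]
    have h2 : ∀ v, tr (act c e0) (tr (act c e0) v) = v := by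
      intro v
      have := comm_unique (f := fun v => tr (act c e0) (tr (act c e0) v)) (g := fun v => v)
        (fun d v => by simp only [tr_act]) (fun d v => rfl) (by
          simp only [tr_e0, tr_act, act_act])
      exact congrFun this v
    rw [h2, hv]

theorem tr_tr {w v : W} (h : tr w v = e0) (u : W) : tr w (tr v u) = u := by
  have := comm_unique (f := fun u => tr w (tr v u)) (g := fun u => u)
    (fun d v => by simp only [tr_act]) (fun d v => rfl) (by simp only [tr_e0, h])
  exact congrFun this u

/-- Translations are bijections. -/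
theorem exists_equiv (w : W) : ∃ e : W ≃ W, (∀ u, e u = tr w u) := by
  obtain ⟨v, hv⟩ := exists_tr w
  obtain ⟨v', hv'⟩ := exists_tr v
  have h1 : ∀ u, tr w (tr v u) = u := tr_tr hv
  have h2 : ∀ u, tr v (tr v' u) = u := tr_tr hv'
  have h3 : ∀ u, tr v (tr w u) = u := by
    intro u
    have : tr v' u = tr w u := by
      rw [← h1 (tr v' u), h2]
    rw [← this, h2]
  exact ⟨⟨tr w, tr v, h3, h1⟩, fun u => rfl⟩

/-- The swap of `e0` and the neighbour of `e0` of colour `c`. -/
def sw (c : Fin 3) : W ≃ W where
  toFun := tr (act c e0)
  invFun := tr (act c e0)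
  left_inv := by
    intro v
    have := comm_unique (f := fun v => tr (act c e0) (tr (act c e0) v)) (g := fun v => v)
      (fun d v => by simp only [tr_act]) (fun d v => rfl) (by
        simp only [tr_e0, tr_act, act_act])
    exact congrFun this v
  right_inv := by
    intro v
    have := comm_unique (f := fun v => tr (act c e0) (tr (act c e0) v)) (g := fun v => v)
      (fun d v => by simp only [tr_act]) (fun d v => rfl) (by
        simp only [tr_e0, tr_act, act_act])
    exact congrFun this v

theorem sw_act (c d : Fin 3) (v : W) : sw c (act d v) = act d (sw c v) := tr_act _ _ _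

theorem sw_e0 (c : Fin 3) : sw c e0 = act c e0 := rfl

theorem sw_sw (c : Fin 3) (v : W) : sw c (sw c v) = v := (sw c).left_inv v

/-! The half tree behind the edge of colour `c` at `e0`. -/

/-- Words whose last letter is `c`. -/
def half (c : Fin 3) : Set W := {w | w.1.getLast? = some c}

theorem half_act_ne {c d : Fin 3} {w : W} (h : ¬ (d = c ∧ (w = e0 ∨ w = act c e0))) :
    act d w ∈ half c ↔ w ∈ half c := by
  obtain ⟨l, hl⟩ := w
  unfold half
  simp only [Set.mem_setOf_eq]
  rcases len_act d ⟨l, hl⟩ with ⟨h0, h1, h2⟩ | ⟨h0, h1, h2⟩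
  · simp only at h2 h0
    rw [h2]
    cases l with
    | nil => simp at h0
    | cons f l =>
      simp only [List.head?_cons, Option.some.injEq] at h0
      subst h0
      simp only [List.tail_cons]
      cases l with
      | nil =>
        simp only [List.getLast?_nil, List.getLast?_singleton, Option.some.injEq]
        constructor
        · intro h; exact absurd h (by simp)
        · intro h3
          exfalso
          apply h
          subst h3
          exact ⟨rfl, Or.inr (by apply Subtype.ext; simp [act, actL, e0])⟩
      | cons g l => simp [List.getLast?_cons_cons]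
  · simp only at h2 h0
    rw [h2]
    cases l with
    | nil =>
      simp only [List.getLast?_nil, List.getLast?_singleton, Option.some.injEq]
      constructor
      · intro h3
        exfalso
        apply h
        exact ⟨h3, Or.inl rfl⟩
      · intro h; exact absurd h (by simp)
    | cons g l => simp [List.getLast?_cons_cons]

theorem e0_not_mem_half (c : Fin 3) : e0 ∉ half c := by simp [half, e0]

theorem act_mem_half (c : Fin 3) : act c e0 ∈ half c := by simp [half, e0, act, actL]

end Pool.Agent.H751R3
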