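import Mathlib

set_option autoImplicit false

/-! Basic facts on real square summable functions. -/

namespace Pool.Agent.H751R3

open scoped ENNReal

variable {V : Type}

/-- real square summable functions -/
abbrev E2 (V : Type) : Type := lp (fun _ : V => ℝ) 2

theorem memE_of_summable (f : V → ℝ) (h : Summable (fun v => f v ^ 2)) : Memℓp f 2 := by
  refine memℓp_gen ?_
  simpa using h

theorem summable_sq (f : E2 V) : Summable (fun v => f v ^ 2) := by
  have := (lp.memℓp f).summable (by norm_num)
  simpa using this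

theorem norm_sq_eq' (f : E2 V) : ‖f‖ ^ 2 = ∑' v, f v ^ 2 := by
  have := lp.norm_rpow_eq_tsum (p := 2) (by norm_num) f
  simpa using this

theorem summable_mul' (f g : E2 V) : Summable (fun v => f v * g v) := by
  have := lp.summable_inner (𝕜 := ℝ) f g
  refine this.congr fun v => ?_
  simp [mul_comm]

theorem inner_eq' (f g : E2 V) : inner ℝ f g = ∑' v, f v * g v := by
  rw [lp.inner_eq_tsum]
  refine tsum_congr fun v => ?_
  simp [mul_comm]

/-- Composition with a bijection. -/
noncomputable def compL (σ : V ≃ V) : E2 V →L[ℝ] E2 V :=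
  LinearMap.mkContinuous
    { toFun := fun f => ⟨fun v => f (σ v), memE_of_summable _ (σ.summable_iff.2 (summable_sq f))⟩
      map_add' := by intro f g; ext v; rfl
      map_smul' := by intro c f; ext v; rfl } 1 (by
    intro f
    rw [one_mul]
    have h1 : ‖(⟨fun v => f (σ v), memE_of_summable _ (σ.summable_iff.2 (summable_sq f))⟩ :
        E2 V)‖ ^ 2 = ‖f‖ ^ 2 := by
      rw [norm_sq_eq', norm_sq_eq']
      exact σ.tsum_eq (fun v => f v ^ 2)
    exact le_of_eq ((pow_left_inj₀ (norm_nonneg _) (norm_nonneg _) two_ne_zero).1 h1))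

theorem compL_apply (σ : V ≃ V) (f : E2 V) (v : V) : compL σ f v = f (σ v) := rfl

/-- a symmetric operator that is bounded below is onto -/
theorem surj_of_bdd_below {E : Type*} [NormedAddCommGroup E] [InnerProductSpace ℝ E]
    [CompleteSpace E] (T : E →L[ℝ] E) (hs : ∀ x y, inner ℝ (T x) y = inner ℝ x (T y))
    {c : ℝ} (hc : 0 < c) (hb : ∀ x, c * ‖x‖ ≤ ‖T x‖) (y : E) : ∃ x, T x = y := by
  have hanti : AntilipschitzWith (Real.toNNReal c⁻¹) T := by
    refine AddMonoidHomClass.antilipschitz_of_bound T fun x => ?_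
    rw [Real.coe_toNNReal _ (by positivity)]
    have := hb x
    rw [inv_mul_eq_div, le_div_iff₀ hc]
    linarith
  have hcl : IsClosed (Set.range T) := hanti.isClosed_range T.uniformContinuous
  have hcl' : IsClosed ((LinearMap.range (T : E →ₗ[ℝ] E) : Submodule ℝ E) : Set E) := by
    rw [LinearMap.coe_range]
    exact hcl
  have : CompleteSpace (LinearMap.range (T : E →ₗ[ℝ] E)) := hcl'.completeSpace_coe
  have htop : LinearMap.range (T : E →ₗ[ℝ] E) = ⊤ := by
    rw [← Submodule.orthogonal_eq_bot_iff]
    rw [Submodule.eq_bot_iff]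
    intro z hz
    have h1 : ∀ x, inner ℝ (T x) z = 0 := fun x =>
      (Submodule.mem_orthogonal _ z).1 hz (T x) ⟨x, rfl⟩
    have h2 : T z = 0 := by
      have := h1 (T z)
      rw [hs] at this
      exact inner_self_eq_zero.1 this
    have h3 := hb z
    rw [h2, norm_zero] at h3
    have : ‖z‖ ≤ 0 := by
      by_contra h
      push Not at h
      nlinarith
    exact norm_le_zero_iff.1 this
  have : y ∈ LinearMap.range (T : E →ₗ[ℝ] E) := by rw [htop]; trivial
  obtain ⟨x, hx⟩ := this
  exact ⟨x, hx⟩

end Pool.Agent.H751R3
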