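import Pool.Agent.H751R3.T3
import Pool.Agent.H751R3.L2

set_option autoImplicit false

/-! The Jacobi operator with edge weights `2, 2, 1` on the 3-regular tree. -/

namespace Pool.Agent.H751R3

open Filter Topology

/-- The edge weights. -/
def wt : Fin 3 → ℝ := ![2, 2, 1]

theorem wt_pos (c : Fin 3) : 0 < wt c := by fin_cases c <;> simp [wt]

/-- `act c` as a bijection. -/
def actE (c : Fin 3) : W ≃ W where
  toFun := act c
  invFun := act c
  left_inv := act_act c
  right_inv := act_act c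

/-- The Jacobi operator. -/
noncomputable def HH : E2 W →L[ℝ] E2 W := ∑ c, wt c • compL (actE c)

theorem HH_apply (f : E2 W) (v : W) : HH f v = ∑ c, wt c * f (act c v) := by
  unfold HH
  rw [Fin.sum_univ_three, Fin.sum_univ_three]
  rfl

theorem HH_symm (f g : E2 W) : inner ℝ (HH f) g = inner ℝ f (HH g) := by
  unfold HH
  rw [sum_apply, sum_apply, sum_inner, inner_sum]
  refine Finset.sum_congr rfl fun c _ => ?_
  rw [smul_apply, smul_apply, real_inner_smul_left,
    real_inner_smul_right]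
  congr 1
  rw [inner_eq', inner_eq', ← (actE c).tsum_eq (fun v => f v * compL (actE c) g v)]
  refine tsum_congr fun v => ?_
  rw [compL_apply, compL_apply]
  congr 1
  change g v = g (act c (act c v))
  rw [act_act]

/-- The function `F(κ)`. -/
noncomputable def FF (κ : ℝ) : ℝ := (∑ c, Real.sqrt (κ ^ 2 + 4 * wt c ^ 2) - κ) / 2

/-- the positive root of `w τ² + κ τ - w = 0` -/
noncomputable def tau (κ : ℝ) (c : Fin 3) : ℝ := (Real.sqrt (κ ^ 2 + 4 * wt c ^ 2) - κ) / (2 * wt c)

theorem tau_pos {κ : ℝ} (hκ : 0 < κ) (c : Fin 3) : 0 < tau κ c := by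
  have h := wt_pos c
  unfold tau
  apply div_pos _ (by linarith)
  have : κ < Real.sqrt (κ ^ 2 + 4 * wt c ^ 2) := by
    apply Real.lt_sqrt_of_sq_lt
    nlinarith [sq_nonneg (wt c), pow_pos h 2]
  linarith

theorem wt_mul_tau (κ : ℝ) (c : Fin 3) :
    wt c * tau κ c = (Real.sqrt (κ ^ 2 + 4 * wt c ^ 2) - κ) / 2 := by
  have h := wt_pos c
  unfold tau
  field_simp

theorem wt_mul_inv_tau {κ : ℝ} (hκ : 0 < κ) (c : Fin 3) :
    wt c * (tau κ c)⁻¹ = (Real.sqrt (κ ^ 2 + 4 * wt c ^ 2) + κ) / 2 := by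
  have h := wt_pos c
  have ht := tau_pos hκ c
  rw [mul_inv_eq_iff_eq_mul₀ ht.ne']
  unfold tau
  have h2 : Real.sqrt (κ ^ 2 + 4 * wt c ^ 2) ^ 2 = κ ^ 2 + 4 * wt c ^ 2 :=
    Real.sq_sqrt (by positivity)
  have h3 : (Real.sqrt (κ ^ 2 + 4 * wt c ^ 2) + κ) / 2 *
      ((Real.sqrt (κ ^ 2 + 4 * wt c ^ 2) - κ) / (2 * wt c)) =
      (Real.sqrt (κ ^ 2 + 4 * wt c ^ 2) ^ 2 - κ ^ 2) / (4 * wt c) := by
    field_simp
    ring
  rw [h3, h2]
  field_simp
  ring

/-- the weights of the Schur test -/
noncomputable def sw' (κ : ℝ) (v : W) (c : Fin 3) : ℝ :=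
  if v.1.head? = some c then (tau κ c)⁻¹ else tau κ c

theorem sw'_pos {κ : ℝ} (hκ : 0 < κ) (v : W) (c : Fin 3) : 0 < sw' κ v c := by
  unfold sw'
  have := tau_pos hκ c
  split_ifs <;> positivity

theorem sw'_act {κ : ℝ} (v : W) (c : Fin 3) : sw' κ (act c v) c = (sw' κ v c)⁻¹ := by
  unfold sw'
  rcases len_act c v with ⟨h0, h1, h2⟩ | ⟨h0, h1, h2⟩
  · rw [if_pos h0, inv_inv, if_neg]
    rw [h2]
    obtain ⟨l, hl⟩ := v
    cases l with
    | nil => simp at h0
    | cons d l =>
      simp only [List.head?_cons, Option.some.injEq] at h0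
      subst h0
      simp only [List.tail_cons]
      cases l with
      | nil => simp
      | cons e l =>
        have : d ≠ e := (List.isChain_cons_cons.1 hl).1
        simpa using fun h => this h.symm
  · rw [if_neg h0, if_pos]
    rw [h2]; simp

theorem sum_sw' {κ : ℝ} (hκ : 0 < κ) (v : W) : ∑ c, wt c * sw' κ v c ≤ FF κ := by
  have hle : ∀ c, wt c * tau κ c ≤ wt c * (tau κ c)⁻¹ := by
    intro c
    rw [wt_mul_tau, wt_mul_inv_tau hκ]; linarith
  have h1 := wt_mul_tau κ
  have h2 := wt_mul_inv_tau hκ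
  unfold sw' FF
  obtain ⟨l, hl⟩ := v
  cases l with
  | nil =>
    simp only [List.head?_nil, reduceCtorEq, if_false, Fin.sum_univ_three]
    rw [h1, h1, h1]
    linarith
  | cons d l =>
    simp only [List.head?_cons, Option.some.injEq, Fin.sum_univ_three]
    fin_cases d
    · simp only [Fin.zero_eta, Fin.isValue, ↓reduceIte, zero_ne_one]
      rw [if_neg (by decide), h1, h1, h2]
      linarith
    · simp only [Fin.mk_one, Fin.isValue, one_ne_zero, ↓reduceIte]
      rw [if_neg (by decide), h1, h1, h2]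
      linarith
    · simp only [Fin.reduceFinMk, Fin.isValue, Fin.reduceEq, ↓reduceIte]
      rw [h1, h1, h2]
      linarith

/-- The Schur bound. -/
theorem abs_inner_le {κ : ℝ} (hκ : 0 < κ) (f : E2 W) :
    |inner ℝ (HH f) f| ≤ FF κ * ‖f‖ ^ 2 := by
  -- absolute value function
  have hs : ∀ c : Fin 3, Summable fun v => wt c * sw' κ v c * f v ^ 2 := by
    intro c
    refine Summable.of_nonneg_of_le (fun v => ?_) (fun v => ?_)
      ((summable_sq f).mul_left (wt c * (tau κ c + (tau κ c)⁻¹)))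
    · have := wt_pos c; have := sw'_pos hκ v c; positivity
    · have h1 := wt_pos c
      have h2 := tau_pos hκ c
      have h3 : sw' κ v c ≤ tau κ c + (tau κ c)⁻¹ := by
        unfold sw'
        have : 0 < (tau κ c)⁻¹ := by positivity
        split_ifs <;> linarith
      have := mul_le_mul_of_nonneg_left h3 h1.le
      nlinarith [sq_nonneg (f v)]
  have hs2 : ∀ c : Fin 3, Summable fun v => wt c * (sw' κ v c)⁻¹ * f (act c v) ^ 2 := by
    intro c
    have h := (actE c).summable_iff.2 (hs c)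
    refine h.congr fun v => ?_
    change wt c * sw' κ (act c v) c * f (act c v) ^ 2 = _
    rw [sw'_act]
  have ht2 : ∀ c : Fin 3, ∑' v, wt c * (sw' κ v c)⁻¹ * f (act c v) ^ 2 =
      ∑' v, wt c * sw' κ v c * f v ^ 2 := by
    intro c
    rw [← (actE c).tsum_eq (fun v => wt c * sw' κ v c * f v ^ 2)]
    refine tsum_congr fun v => ?_
    change _ = wt c * sw' κ (act c v) c * f (act c v) ^ 2
    rw [sw'_act]
  have hterm : ∀ c : Fin 3, |∑' v, wt c * (f (act c v) * f v)| ≤
      ∑' v, wt c * sw' κ v c * f v ^ 2 := by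
    intro c
    have hsm : Summable fun v => f (act c v) * f v := by
      have := summable_mul' (compL (actE c) f) f
      exact this
    have hbd : ∀ v, |wt c * (f (act c v) * f v)| ≤
        (wt c * sw' κ v c * f v ^ 2 + wt c * (sw' κ v c)⁻¹ * f (act c v) ^ 2) / 2 := by
      intro v
      have h1 := wt_pos c
      have h2 := sw'_pos hκ v c
      set s := sw' κ v c
      set x := f v
      set y := f (act c v)
      rw [abs_mul, abs_of_pos h1, abs_mul]
      have h3 : 2 * (|y| * |x|) ≤ s * x ^ 2 + s⁻¹ * y ^ 2 := by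
        have h4 : 0 ≤ s⁻¹ * (s * |x| - |y|) ^ 2 := by positivity
        have h5 : s⁻¹ * (s * |x| - |y|) ^ 2 = s * |x| ^ 2 + s⁻¹ * |y| ^ 2 - 2 * (|y| * |x|) := by
          field_simp
          ring
        rw [h5, sq_abs, sq_abs] at h4
        linarith
      nlinarith
    calc |∑' v, wt c * (f (act c v) * f v)| ≤ ∑' v, |wt c * (f (act c v) * f v)| := by
          have := norm_tsum_le_tsum_norm (f := fun v => wt c * (f (act c v) * f v))
            ((hsm.mul_left (wt c)).norm)
          simpa [Real.norm_eq_abs] using this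
      _ ≤ ∑' v, (wt c * sw' κ v c * f v ^ 2 + wt c * (sw' κ v c)⁻¹ * f (act c v) ^ 2) / 2 := by
          refine Summable.tsum_le_tsum hbd ?_ (((hs c).add (hs2 c)).div_const 2)
          exact ((hsm.mul_left (wt c)).norm).congr fun v => by rw [Real.norm_eq_abs]
      _ = ∑' v, wt c * sw' κ v c * f v ^ 2 := by
          rw [tsum_div_const, Summable.tsum_add (hs c) (hs2 c), ht2]
          ring
  have hin : inner ℝ (HH f) f = ∑ c, ∑' v, wt c * (f (act c v) * f v) := by
    unfold HH
    rw [sum_apply, sum_inner]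
    refine Finset.sum_congr rfl fun c _ => ?_
    rw [smul_apply, real_inner_smul_left, inner_eq', tsum_mul_left]
    rfl
  rw [hin]
  calc |∑ c, ∑' v, wt c * (f (act c v) * f v)| ≤ ∑ c, |∑' v, wt c * (f (act c v) * f v)| :=
        Finset.abs_sum_le_sum_abs _ _
    _ ≤ ∑ c, ∑' v, wt c * sw' κ v c * f v ^ 2 := Finset.sum_le_sum fun c _ => hterm c
    _ = ∑' v, ∑ c, wt c * sw' κ v c * f v ^ 2 := by
        rw [Summable.tsum_finsetSum fun c _ => hs c]
    _ ≤ ∑' v, FF κ * f v ^ 2 := by
        refine Summable.tsum_le_tsum (fun v => ?_) (summable_sum fun c _ => hs c)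
          ((summable_sq f).mul_left _)
        rw [← Finset.sum_mul]
        exact mul_le_mul_of_nonneg_right (sum_sw' hκ v) (sq_nonneg _)
    _ = FF κ * ‖f‖ ^ 2 := by rw [tsum_mul_left, norm_sq_eq']

end Pool.Agent.H751R3
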