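import Pool.Agent.H751R3.Op3

set_option autoImplicit false

/-! Resolvent identities for the operator with edge weights `2, 2, 1` on the 3-regular tree. -/

namespace Pool.Agent.H751R3

open Filter Topology

/-- the unit vector at `v` -/
noncomputable def dl (v : W) : E2 W := by
  classical exact lp.single 2 v (1 : ℝ)

theorem dl_apply (v w : W) [Decidable (w = v)] : dl v w = if w = v then 1 else 0 := by
  classical
  unfold dl
  rw [lp.single_apply]
  by_cases h : w = v
  · subst h; simp
  · simp [h]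

theorem inner_dl (v : W) (f : E2 W) : inner ℝ (dl v) f = f v := by
  classical
  unfold dl
  rw [lp.inner_single_left]
  simp

theorem norm_dl (v : W) : ‖dl v‖ = 1 := by
  classical
  unfold dl
  rw [lp.norm_single (by norm_num)]
  simp

theorem green1 {ψ : E2 W} {t : ℝ} (h : HH ψ - t • ψ = dl e0) :
    ∑ c, wt c * ψ (act c e0) - t * ψ e0 = 1 := by
  classical
  have h1 := congrArg (fun f : E2 W => f e0) h
  simp only at h1
  rw [dl_apply, if_pos rfl] at h1
  rw [← h1, ← HH_apply]
  rfl

theorem green2 {ψ : E2 W} {t : ℝ} (h : HH ψ - t • ψ = dl e0) (c : Fin 3) :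
    wt c * (ψ (act c e0) ^ 2 - ψ e0 ^ 2) = ψ (act c e0) := by
  classical
  set φ : E2 W := compL (sw c) ψ with hφ
  have hφv : ∀ v, φ v = ψ (sw c v) := fun v => rfl
  have hψ1 : ∀ v, ∑ d, wt d * ψ (act d v) - t * ψ v = if v = e0 then 1 else 0 := by
    intro v
    have h1 := congrArg (fun f : E2 W => f v) h
    simp only at h1
    rw [dl_apply] at h1
    rw [← h1, ← HH_apply]
    rfl
  have hφ1 : ∀ v, ∑ d, wt d * φ (act d v) - t * φ v = if v = act c e0 then 1 else 0 := by
    intro v
    have h1 := hψ1 (sw c v)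
    have h2 : (sw c v = e0) ↔ (v = act c e0) := by
      constructor
      · intro h3
        rw [← sw_sw c v, h3]; rfl
      · rintro rfl
        rw [← sw_e0, sw_sw]
    have h3 : ∀ d, φ (act d v) = ψ (act d (sw c v)) := by
      intro d
      rw [hφv, sw_act]
    simp only [h3]
    rw [hφv, h1]
    simp only [h2]
  set ind : W → ℝ := Set.indicator (half c) (fun _ => 1) with hind
  have hind01 : ∀ v, |ind v| ≤ 1 := by
    intro v
    rw [hind]
    by_cases hv : v ∈ half c <;> simp [hv]
  have hs1 : ∀ d, Summable fun v => ψ v * φ (act d v) := fun d =>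
    summable_mul' ψ (compL (actE d) φ)
  have hs2 : ∀ d, Summable fun v => ψ (act d v) * φ v := fun d =>
    summable_mul' (compL (actE d) ψ) φ
  set K : Fin 3 → W → ℝ := fun d v => ψ v * φ (act d v) - ψ (act d v) * φ v with hK
  have hsK : ∀ d, Summable (K d) := fun d => (hs1 d).sub (hs2 d)
  have hsI : ∀ d, Summable fun v => ind v * K d v := by
    intro d
    refine Summable.of_norm_bounded ((hsK d).norm) fun v => ?_
    rw [norm_mul, Real.norm_eq_abs, Real.norm_eq_abs]
    have := hind01 v
    nlinarith [abs_nonneg (K d v)]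
  have hKact : ∀ d v, K d (act d v) = - K d v := by
    intro d v
    simp only [hK, act_act]
    ring
  have hflip : ∀ d, ∑' v, ind v * K d v = - ∑' v, ind (act d v) * K d v := by
    intro d
    rw [← (actE d).tsum_eq (fun v => ind v * K d v), ← tsum_neg]
    refine tsum_congr fun v => ?_
    change ind (act d v) * K d (act d v) = _
    rw [hKact]; ring
  have hsI2 : ∀ d, Summable fun v => ind (act d v) * K d v := by
    intro d
    refine Summable.of_norm_bounded ((hsK d).norm) fun v => ?_
    rw [norm_mul, Real.norm_eq_abs, Real.norm_eq_abs]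
    have := hind01 (act d v)
    nlinarith [abs_nonneg (K d v)]
  have htwo : ∀ d, 2 * ∑' v, ind v * K d v = ∑' v, (ind v - ind (act d v)) * K d v := by
    intro d
    have h1 : ∑' v, (ind v - ind (act d v)) * K d v =
        ∑' v, ind v * K d v - ∑' v, ind (act d v) * K d v := by
      rw [← Summable.tsum_sub (hsI d) (hsI2 d)]
      exact tsum_congr fun v => by ring
    rw [h1, ← neg_eq_iff_eq_neg.2 (hflip d)]
    ring
  have hindact : ∀ d v, ¬ (d = c ∧ (v = e0 ∨ v = act c e0)) → ind (act d v) = ind v := by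
    intro d v hdv
    have := half_act_ne hdv
    rw [hind]
    simp only [Set.indicator_apply, this]
  have hzero : ∀ d, d ≠ c → ∑' v, ind v * K d v = 0 := by
    intro d hd
    have h1 := htwo d
    have h2 : ∀ v, (ind v - ind (act d v)) * K d v = 0 := by
      intro v
      rw [hindact d v (fun h3 => hd h3.1)]; ring
    simp only [h2, tsum_zero] at h1
    linarith
  have he0 : ind e0 = 0 := by
    rw [hind, Set.indicator_of_notMem (e0_not_mem_half c)]
  have hce0 : ind (act c e0) = 1 := by
    rw [hind, Set.indicator_of_mem (act_mem_half c)]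
  have hne : e0 ≠ act c e0 := fun h3 => act_ne c e0 h3.symm
  have hcc : ∑' v, ind v * K c v = ψ (act c e0) ^ 2 - ψ e0 ^ 2 := by
    have h1 := htwo c
    have h5 : ∑' v, (ind v - ind (act c v)) * K c v = (ind e0 - ind (act c e0)) * K c e0 +
        (ind (act c e0) - ind (act c (act c e0))) * K c (act c e0) := by
      rw [tsum_eq_sum (s := {e0, act c e0}) (by
        intro v hv
        simp only [Finset.mem_insert, Finset.mem_singleton, not_or] at hv
        rw [hindact c v (fun h3 => by rcases h3.2 with h4 | h4; exacts [hv.1 h4, hv.2 h4])]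
        ring), Finset.sum_pair hne]
    rw [h5, act_act, he0, hce0] at h1
    have h2 : K c e0 = ψ e0 ^ 2 - ψ (act c e0) ^ 2 := by
      simp only [hK]
      have h3 : φ (act c e0) = ψ e0 := by rw [hφv, sw_act, sw_e0, act_act]
      have h4 : φ e0 = ψ (act c e0) := by rw [hφv, sw_e0]
      rw [h3, h4]; ring
    have h3 : K c (act c e0) = - K c e0 := hKact c e0
    rw [h3, h2] at h1
    linarith
  -- total
  have htot : ∑ d, wt d * ∑' v, ind v * K d v = ψ (act c e0) := by
    have h1 : ∑ d, wt d * ∑' v, ind v * K d v = ∑' v, ∑ d, wt d * (ind v * K d v) := by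
      rw [Summable.tsum_finsetSum fun d _ => (hsI d).mul_left (wt d)]
      exact Finset.sum_congr rfl fun d _ => (tsum_mul_left).symm
    rw [h1]
    have h2 : ∀ v, ∑ d, wt d * (ind v * K d v) =
        if v = act c e0 then ψ (act c e0) else 0 := by
      intro v
      have h3 : ∑ d, wt d * (ind v * K d v) =
          ind v * (ψ v * (∑ d, wt d * φ (act d v) - t * φ v) -
            (∑ d, wt d * ψ (act d v) - t * ψ v) * φ v) := by
        simp only [hK, Fin.sum_univ_three]
        ring
      rw [h3, hψ1, hφ1]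
      by_cases hv : v = act c e0
      · subst hv
        rw [if_pos rfl, if_neg hne.symm, if_pos rfl, hce0]; ring
      · rw [if_neg hv, if_neg hv]
        by_cases hv2 : v = e0
        · subst hv2
          rw [he0]; ring
        · rw [if_neg hv2]; ring
    simp only [h2]
    rw [tsum_eq_single (act c e0) (by intro v hv; rw [if_neg hv])]
    rw [if_pos rfl]
  rw [Finset.sum_eq_single c (fun d _ hd => by rw [hzero d hd, mul_zero])
    (fun h3 => absurd (Finset.mem_univ c) h3), hcc] at htot
  exact htot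

/-- derivative of the resolvent -/
theorem deriv_res {c t : ℝ} (hc : 0 < c) {J : Set ℝ} (hJ : J ∈ 𝓝 t)
    (hb : ∀ s ∈ J, ∀ f : E2 W, c * ‖f‖ ≤ ‖HH f - s • f‖)
    (ψ : ℝ → E2 W) (hψ : ∀ s ∈ J, HH (ψ s) - s • ψ s = dl e0) (v : W) (χ : E2 W)
    (hχ : HH χ - t • χ = dl v) :
    HasDerivAt (fun s => ψ s v) (inner ℝ χ (ψ t)) t := by
  have htJ : t ∈ J := mem_of_mem_nhds hJ
  have hdiff : ∀ s ∈ J, HH (ψ s - ψ t) - t • (ψ s - ψ t) = (s - t) • ψ s := by
    intro s hs
    have h1 := hψ s hs
    have h2 := hψ t htJ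
    rw [map_sub, smul_sub, sub_smul]
    have h3 : HH (ψ s) = dl e0 + s • ψ s := by rw [← h1]; abel
    have h4 : HH (ψ t) = dl e0 + t • ψ t := by rw [← h2]; abel
    rw [h3, h4]; abel
  have hnorm : ∀ s ∈ J, ‖ψ s‖ ≤ c⁻¹ := by
    intro s hs
    have h1 := hb s hs (ψ s)
    rw [hψ s hs, norm_dl] at h1
    rw [← one_div, le_div_iff₀ hc]
    linarith
  have hcont : Tendsto ψ (𝓝 t) (𝓝 (ψ t)) := by
    rw [tendsto_iff_norm_sub_tendsto_zero]
    have h1 : ∀ᶠ s in 𝓝 t, ‖ψ s - ψ t‖ ≤ |s - t| * (c⁻¹ * c⁻¹) := by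
      filter_upwards [hJ] with s hs
      have h2 := hb t htJ (ψ s - ψ t)
      rw [hdiff s hs, norm_smul, Real.norm_eq_abs] at h2
      have h3 := hnorm s hs
      have h4 : c * ‖ψ s - ψ t‖ ≤ |s - t| * c⁻¹ :=
        h2.trans (mul_le_mul_of_nonneg_left h3 (abs_nonneg _))
      calc ‖ψ s - ψ t‖ = c⁻¹ * (c * ‖ψ s - ψ t‖) := by field_simp
        _ ≤ c⁻¹ * (|s - t| * c⁻¹) := mul_le_mul_of_nonneg_left h4 (by positivity)
        _ = _ := by ring
    refine squeeze_zero' (Eventually.of_forall fun s => norm_nonneg _) h1 ?_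
    have h5 : Tendsto (fun s : ℝ => |s - t| * (c⁻¹ * c⁻¹)) (𝓝 t) (𝓝 (|t - t| * (c⁻¹ * c⁻¹))) := by
      apply Continuous.tendsto; fun_prop
    simpa using h5
  rw [hasDerivAt_iff_tendsto_slope]
  have hlim : Tendsto (fun s => inner ℝ χ (ψ s)) (𝓝[≠] t) (𝓝 (inner ℝ χ (ψ t))) :=
    (tendsto_const_nhds.inner hcont).mono_left nhdsWithin_le_nhds
  refine hlim.congr' ?_
  filter_upwards [nhdsWithin_le_nhds hJ, self_mem_nhdsWithin] with s hs hst
  have hst' : s - t ≠ 0 := sub_ne_zero.2 hst
  have h1 : ψ s v - ψ t v = (s - t) * inner ℝ χ (ψ s) := by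
    have h2 : inner ℝ (dl v) (ψ s - ψ t) = ψ s v - ψ t v := by
      rw [inner_dl]; rfl
    rw [← h2, ← hχ, inner_sub_left, HH_symm, real_inner_smul_left, ← real_inner_smul_right,
      ← inner_sub_right, hdiff s hs, real_inner_smul_right]
  rw [slope_def_field, h1]
  field_simp

end Pool.Agent.H751R3
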